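import Pool.Agent.Lib.MP_2eed13_lc.LCA.Base

/-!
PRIME: the first prime at least `m`.
-/

set_option autoImplicit false

namespace Pool.Agent.Lib.MP_2eed13_lc.LCA.H58

open Finset

theorem isPrimeN_eq (p : ℕ) : isPrimeN p = if p.Prime then 1 else 0 := by
  have h1 : (∑ d ∈ range p, if p % (d + 1) = 0 then 1 else 0) = p.divisors.card := by
    rw [Finset.sum_boole]
    simp only [Nat.cast_id]
    refine Finset.card_bij (fun d _ => d + 1) ?_ ?_ ?_
    · intro d hd
      rw [Finset.mem_filter, Finset.mem_range] at hd
      rw [Nat.mem_divisors]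
      exact ⟨Nat.dvd_of_mod_eq_zero hd.2, by omega⟩
    · intro a _ b _ h
      omega
    · intro b hb
      rw [Nat.mem_divisors] at hb
      have hpos : 0 < b := Nat.pos_of_dvd_of_pos hb.1 (Nat.pos_of_ne_zero hb.2)
      have hle : b ≤ p := Nat.le_of_dvd (Nat.pos_of_ne_zero hb.2) hb.1
      refine ⟨b - 1, ?_, by omega⟩
      rw [Finset.mem_filter, Finset.mem_range]
      refine ⟨by omega, ?_⟩
      rw [Nat.sub_add_cancel hpos]
      exact Nat.mod_eq_zero_of_dvd hb.1
  unfold isPrimeN
  rw [h1]
  by_cases hp : p.Prime
  · rw [if_pos hp, if_pos]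
    rw [hp.divisors]
    exact Finset.card_pair hp.one_lt.ne
  · rw [if_neg hp, if_neg]
    intro h
    apply hp
    have hp0 : p ≠ 0 := by rintro rfl; simp at h
    have hp1 : p ≠ 1 := by rintro rfl; simp at h
    rw [Nat.prime_def]
    refine ⟨by omega, fun m hm => ?_⟩
    by_contra hcon
    push Not at hcon
    have hsub : ({1, m, p} : Finset ℕ) ⊆ p.divisors := by
      intro x hx
      simp only [Finset.mem_insert, Finset.mem_singleton] at hx
      rw [Nat.mem_divisors]
      rcases hx with rfl | rfl | rfl
      · exact ⟨one_dvd _, hp0⟩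
      · exact ⟨hm, hp0⟩
      · exact ⟨dvd_rfl, hp0⟩
    have hc := Finset.card_le_card hsub
    rw [h, Finset.card_insert_of_notMem, Finset.card_pair hcon.2] at hc
    · omega
    · simp only [Finset.mem_insert, Finset.mem_singleton]
      push Not
      exact ⟨fun h' => hcon.1 h'.symm, fun h' => hp1 h'.symm⟩

theorem prime : PrimeStatement := by
  intro m hm
  -- the first prime at least m
  obtain ⟨q, hq, hmq, hq2⟩ := Nat.exists_prime_lt_and_le_two_mul m (by omega)
  have hex : ∃ j, (m + j).Prime := ⟨q - m, by rw [Nat.add_sub_cancel' hmq.le]; exact hq⟩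
  classical
  set J := Nat.find hex with hJ
  have hJp : (m + J).Prime := Nat.find_spec hex
  have hJmin : ∀ j < J, ¬ (m + j).Prime := fun j hj => Nat.find_min hex hj
  have hJle : J ≤ q - m := Nat.find_min' hex (by rw [Nat.add_sub_cancel' hmq.le]; exact hq)
  have hJm : J ≤ m := by omega
  have hsum : (∑ i ∈ range (m + 2), if (∑ j ∈ range (i + 1), isPrimeN (m + j)) = 0 then 1 else 0)
      = J := by
    have h1 : ∀ i ∈ range (m + 2),
        (if (∑ j ∈ range (i + 1), isPrimeN (m + j)) = 0 then 1 else 0) = if i < J then 1 else 0 := by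
      intro i _
      by_cases hi : i < J
      · rw [if_pos hi, if_pos]
        apply Finset.sum_eq_zero
        intro j hj
        rw [isPrimeN_eq, if_neg (hJmin j (by rw [Finset.mem_range] at hj; omega))]
      · rw [if_neg hi, if_neg]
        intro h
        rw [Finset.sum_eq_zero_iff] at h
        have := h J (by rw [Finset.mem_range]; omega)
        rw [isPrimeN_eq, if_pos hJp] at this
        omega
    rw [Finset.sum_congr rfl h1, Finset.sum_boole]
    have h2 : (range (m + 2)).filter (fun i => i < J) = range J := by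
      ext i
      simp only [Finset.mem_filter, Finset.mem_range]
      omega
    rw [h2]
    simp
  have hP : primeFor m = m + J := by
    unfold primeFor
    rw [hsum]
  rw [hP]
  exact ⟨hJp, by omega, by omega⟩

end Pool.Agent.Lib.MP_2eed13_lc.LCA.H58
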